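import Pool.Agent.helper99.PLR.Spec

/-! Row plr:BIP: the edges between two levels -/

set_option autoImplicit false
set_option linter.unusedVariables false

open scoped Classical

namespace Pool.Agent.PLR

open Finset
open Pool.Agent.helper65.HC (V IsEig IsTop lam)
open Pool.Agent.helper9.HQ (Fam Dn E N Le Eig lk)
open Pool.Agent.helper9.HX (Ef)
open Pool.Agent.helper9.HLR (cel Lc)

noncomputable section

/-- the test function -/
def BIP_g {d : ℕ} (k : ℕ) (t : ℝ) (u v : Finset (Fin d) → ℝ) (x : Finset (Fin d)) : ℝ :=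
  if x.card = k then t * u x else if x.card = k + 1 then t⁻¹ * v x else 0

theorem BIP_E {d : ℕ} (k : ℕ) (t : ℝ) (ht : 0 < t) (U : Fam d) (u v : Finset (Fin d) → ℝ) :
    E U (BIP_g k t u v) = 2 * ∑ x ∈ U.filter (fun x => x.card = k + 1), ∑ i ∈ x, v x * u (x.erase i) := by
  unfold E
  rw [Finset.sum_filter]
  congr 1
  apply Finset.sum_congr rfl
  intro x _
  split_ifs with hc
  · apply Finset.sum_congr rfl
    intro i hi
    have h1 : (x.erase i).card = k := by
      rw [Finset.card_erase_of_mem hi]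
      omega
    unfold BIP_g
    rw [if_neg (by omega), if_pos hc, if_pos h1]
    field_simp
  · apply Finset.sum_eq_zero
    intro i hi
    have h1 : (x.erase i).card = x.card - 1 := Finset.card_erase_of_mem hi
    have h2 : 0 < x.card := Finset.card_pos.2 ⟨i, hi⟩
    by_cases hk : x.card = k
    · have h3 : BIP_g k t u v (x.erase i) = 0 := by
        unfold BIP_g
        rw [if_neg (by omega), if_neg (by omega)]
      rw [h3, mul_zero]
    · have h3 : BIP_g k t u v x = 0 := by
        unfold BIP_g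
        rw [if_neg hk, if_neg hc]
      rw [h3, zero_mul]

theorem BIP_N {d : ℕ} (k : ℕ) (t : ℝ) (U : Fam d) (u v : Finset (Fin d) → ℝ) :
    N U (BIP_g k t u v) = t ^ 2 * ∑ y ∈ U.filter (fun y => y.card = k), u y ^ 2 +
      (t ^ 2)⁻¹ * ∑ x ∈ U.filter (fun x => x.card = k + 1), v x ^ 2 := by
  unfold N
  rw [Finset.sum_filter, Finset.sum_filter, Finset.mul_sum, Finset.mul_sum, ← Finset.sum_add_distrib]
  apply Finset.sum_congr rfl
  intro x _
  unfold BIP_g
  by_cases h1 : x.card = k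
  · rw [if_pos h1, if_pos h1, if_neg (by omega)]
    ring
  · rw [if_neg h1, if_neg h1]
    by_cases h2 : x.card = k + 1
    · rw [if_pos h2, if_pos h2]
      rw [mul_pow, inv_pow]
      ring
    · rw [if_neg h2, if_neg h2]
      ring

theorem BIP : BIP_stmt := by
  intro d k U L u v hU hL hLe
  set Nu := ∑ y ∈ U.filter (fun y => y.card = k), u y ^ 2 with hNu
  set Nv := ∑ x ∈ U.filter (fun x => x.card = k + 1), v x ^ 2 with hNv
  have hu0 : 0 ≤ Nu := Finset.sum_nonneg fun y _ => sq_nonneg _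
  have hv0 : 0 ≤ Nv := Finset.sum_nonneg fun y _ => sq_nonneg _
  by_cases hu : Nu = 0
  · have h1 : ∀ y ∈ U.filter (fun y => y.card = k), u y ^ 2 = 0 :=
      (Finset.sum_eq_zero_iff_of_nonneg fun y _ => sq_nonneg _).1 hu
    have h2 : ∑ x ∈ U.filter (fun x => x.card = k + 1), ∑ i ∈ x, v x * u (x.erase i) = 0 := by
      apply Finset.sum_eq_zero
      intro x hx
      apply Finset.sum_eq_zero
      intro i hi
      rw [Finset.mem_filter] at hx
      have h3 : u (x.erase i) ^ 2 = 0 := by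
        apply h1
        rw [Finset.mem_filter, Finset.card_erase_of_mem hi]
        exact ⟨hU x hx.1 _ (Finset.erase_subset _ _), by omega⟩
      rw [pow_eq_zero_iff (by norm_num)] at h3
      rw [h3, mul_zero]
    rw [h2]
    positivity
  by_cases hv : Nv = 0
  · have h1 : ∀ x ∈ U.filter (fun x => x.card = k + 1), v x ^ 2 = 0 :=
      (Finset.sum_eq_zero_iff_of_nonneg fun y _ => sq_nonneg _).1 hv
    have h2 : ∑ x ∈ U.filter (fun x => x.card = k + 1), ∑ i ∈ x, v x * u (x.erase i) = 0 := by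
      apply Finset.sum_eq_zero
      intro x hx
      apply Finset.sum_eq_zero
      intro i hi
      have h3 := h1 x hx
      rw [pow_eq_zero_iff (by norm_num)] at h3
      rw [h3, zero_mul]
    rw [h2]
    positivity
  have hu1 : 0 < Nu := lt_of_le_of_ne hu0 (Ne.symm hu)
  have hv1 : 0 < Nv := lt_of_le_of_ne hv0 (Ne.symm hv)
  have ha : 0 < √Nu := Real.sqrt_pos.2 hu1
  have hb : 0 < √Nv := Real.sqrt_pos.2 hv1
  have haa : √Nu ^ 2 = Nu := Real.sq_sqrt hu0
  have hbb : √Nv ^ 2 = Nv := Real.sq_sqrt hv0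
  have ht : 0 < √(√Nv / √Nu) := Real.sqrt_pos.2 (div_pos hb ha)
  have htt : √(√Nv / √Nu) ^ 2 = √Nv / √Nu := Real.sq_sqrt (div_pos hb ha).le
  have h1 := hLe (BIP_g k (√(√Nv / √Nu)) u v)
  rw [BIP_E k _ ht, BIP_N, htt, ← hNu, ← hNv] at h1
  have h2 : √Nv / √Nu * Nu + (√Nv / √Nu)⁻¹ * Nv = 2 * (√Nu * √Nv) := by
    have e1 : √Nv / √Nu * Nu = √Nu * √Nv := by
      calc √Nv / √Nu * Nu = √Nv / √Nu * √Nu ^ 2 := by rw [haa]
        _ = √Nu * √Nv := by field_simp
    have e2 : (√Nv / √Nu)⁻¹ * Nv = √Nu * √Nv := by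
      calc (√Nv / √Nu)⁻¹ * Nv = (√Nv / √Nu)⁻¹ * √Nv ^ 2 := by rw [hbb]
        _ = √Nu * √Nv := by field_simp
    rw [e1, e2]
    ring
  rw [h2] at h1
  nlinarith [h1]

end

end Pool.Agent.PLR
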